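import Pool.Agent.Helper68.LD6.E2

/-!
# LD6, block E1: the martingale of one functional
-/

set_option autoImplicit false

namespace Pool.Agent.Helper9.LD6

open Set MeasureTheory Filter Topology
open Pool.Agent.Helper33.LD (ii_of_bdd)
open Pool.Agent.Helper34.LD (av_abs_le)
open Pool.Agent.Helper41.LD (av var)
open Pool.Agent.Helper68.LD (av_children child_mem)
open Pool.Agent.Helper41.LD4 (A M W Pot NB NBg)
open Pool.Agent.Helper68.LD4 (dA dT inc_eq A_const68)
open Pool.Agent.Helper68.LD6 (M_eq68 M_tail68)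
open Pool.Agent.Helper41.LD6

variable {G : ℕ → ℝ → ℝ} {w η : ℝ} {H n : ℕ} {a ℓ : ℝ}

theorem A_le_one (hw : Wq G w η H n a ℓ) (j : ℕ) : |A G j a ℓ| ≤ 1 := av_abs_le (hw.bdd j) a hw.pos

theorem M_eq (hw : Wq G w η H n a ℓ) : M G a ℓ = ∑ j ∈ Finset.range H, A G j a ℓ := M_eq68 hw a ℓ

theorem M_tail (hw : Wq G w η H n a ℓ) {m' : ℕ} (hm : n ≤ m') : |M G a ℓ - ∑ j ∈ Finset.range m', A G j a ℓ| ≤ w := M_tail68 hw hm

theorem M_le (hw : Wq G w η H n a ℓ) : |M G a ℓ| ≤ n + w := by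
  have h1 := M_tail hw (le_refl n)
  have h2 : |∑ j ∈ Finset.range n, A G j a ℓ| ≤ n := by
    refine (Finset.abs_sum_le_sum_abs _ _).trans ((Finset.sum_le_sum fun j _ => A_le_one hw j).trans (le_of_eq ?_))
    simp
  have h4 : M G a ℓ = (M G a ℓ - ∑ j ∈ Finset.range n, A G j a ℓ) + ∑ j ∈ Finset.range n, A G j a ℓ := by ring
  rw [h4]
  refine (abs_add_le _ _).trans ?_
  linarith

theorem M_children (hw : Wq G w η H n a ℓ) {n' B : ℕ} (hB : 1 ≤ B) (hw' : ∀ b < B, Wq G w η H n' (a + b * (ℓ / B)) (ℓ / B)) :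
    ∑ b ∈ Finset.range B, M G (a + b * (ℓ / B)) (ℓ / B) = B * M G a ℓ := by
  have _ := hw'
  simp only [M_eq68 hw]
  rw [Finset.sum_comm, Finset.mul_sum]
  refine Finset.sum_congr rfl fun j _ => ?_
  unfold A
  exact av_children (fun p q => ii_of_bdd (hw.meas j) (hw.bdd j) p q) a hw.pos hB

theorem sum_sub_M (hw : Wq G w η H n a ℓ) {r : ℕ} (h : NB G n r a ℓ) {x : ℝ} (hx : x ∈ Icc a (a + ℓ)) :
    |∑ j ∈ Finset.range n, G j x - M G a ℓ| ≤ 2 * r + w := by
  have hℓ := hw.pos
  have h1 := M_tail hw (le_refl n)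
  have h4 : |∑ j ∈ Finset.range n, (G j x - A G j a ℓ)| ≤ 2 * r := by
    refine (Finset.abs_sum_le_sum_abs _ _).trans ?_
    have h5 : ∀ j ∈ Finset.range n, |G j x - A G j a ℓ| ≤ if n ≤ j + r then 2 else 0 := by
      intro j _
      by_cases hj : n ≤ j + r
      · rw [if_pos hj]
        refine (abs_sub _ _).trans ?_
        have h6 := hw.bdd j x
        have h7 := A_le_one hw j
        linarith
      · rw [if_neg hj, h j (by omega) x hx, A_const68 h (by omega) le_rfl hℓ le_rfl, sub_self, abs_zero]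
    refine (Finset.sum_le_sum h5).trans ?_
    rw [← Finset.sum_filter, Finset.sum_const, nsmul_eq_mul]
    have h6 : ((Finset.range n).filter fun j => n ≤ j + r).card ≤ r := by
      have h7 : (Finset.range n).filter (fun j => n ≤ j + r) ⊆ Finset.Ico (n - r) n := by
        intro j hj
        rw [Finset.mem_filter, Finset.mem_range] at hj
        rw [Finset.mem_Ico]
        omega
      refine (Finset.card_le_card h7).trans ?_
      rw [Nat.card_Ico]
      omega
    have h8 : (((Finset.range n).filter fun j => n ≤ j + r).card : ℝ) ≤ r := by exact_mod_cast h6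
    linarith
  have h5 : ∑ j ∈ Finset.range n, G j x - M G a ℓ =
      ∑ j ∈ Finset.range n, (G j x - A G j a ℓ) - (M G a ℓ - ∑ j ∈ Finset.range n, A G j a ℓ) := by
    rw [Finset.sum_sub_distrib]
    ring
  rw [h5]
  refine (abs_sub _ _).trans ?_
  linarith

theorem M_inc (hw : Wq G w η H n a ℓ) {r L B b : ℕ} (h : NB G n r a ℓ) (hB : 1 ≤ B) (hb : b < B)
    (hw' : Wq G w η H (n + L) (a + b * (ℓ / B)) (ℓ / B)) :
    |M G (a + b * (ℓ / B)) (ℓ / B) - M G a ℓ| ≤ 2 * L + 2 * r + 2 * w := by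
  have _ := hB
  rw [inc_eq (n := n) (L := L) hw.pos h hb]
  obtain ⟨c1, c2, c3⟩ := child_mem (a := a) hw.pos hb
  have h1 : |dT G (n + L) a ℓ B b| ≤ 2 * w := by
    unfold dT
    have h1 := M_tail hw' (le_refl (n + L))
    have h2 := M_tail hw (Nat.le_add_right n L)
    refine (abs_sub _ _).trans ?_
    linarith
  have hd : ∀ j, |dA G j a ℓ B b| ≤ 2 := by
    intro j
    unfold dA
    refine (abs_sub _ _).trans ?_
    linarith [av_abs_le (hw.bdd j) (a + b * (ℓ / B)) c2, av_abs_le (hw.bdd j) a hw.pos, A_le_one hw j, A_le_one hw' j]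
  have h3 : |∑ j ∈ Finset.Ico (n - r) (n + L), dA G j a ℓ B b| ≤ 2 * (L + r) := by
    refine (Finset.abs_sum_le_sum_abs _ _).trans ?_
    refine (Finset.sum_le_sum fun j _ => hd j).trans ?_
    rw [Finset.sum_const, Nat.card_Ico, nsmul_eq_mul]
    have : ((n + L - (n - r) : ℕ) : ℝ) ≤ L + r := by
      have : n + L - (n - r) ≤ L + r := by omega
      exact_mod_cast this
    linarith
  refine (abs_add_le _ _).trans ((add_le_add h3 h1).trans (le_of_eq ?_))
  ring

end Pool.Agent.Helper9.LD6
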